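import Pool.Agent.H308R2.ZS.Stubs

set_option autoImplicit false

open scoped ComplexConjugate Kronecker Matrix.Norms.L2Operator

noncomputable section

namespace Pool.Agent.H308R2.ZS.T_LAWM

open Pool.Agent.H923R2.FP Pool.Agent.H923R2.FZ Pool.Agent.H308R2.ZS MeasureTheory
open scoped CompactlySupported

section
variable {B : Type} [CStarAlgebra B]

lemma hle (x : B) : -‖x‖ ≤ ‖x‖ := by
  have := norm_nonneg x
  linarith

/-- extension of a function on the interval -/
def ext (x : B) (f : Set.Icc (-‖x‖) ‖x‖ → ℝ) : ℝ → ℝ := Set.IccExtend (hle x) f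

lemma ext_cont (x : B) (f : Set.Icc (-‖x‖) ‖x‖ → ℝ) (hf : Continuous f) :
    Continuous (ext x f) := hf.Icc_extend'

/-- the functional -/
def Lam (τ : B →ₗ[ℂ] ℂ) (hτ : FTS τ) (x : B) (hx : star x = x) :
    C_c(Set.Icc (-‖x‖) ‖x‖, ℝ) →ₗ[ℝ] ℝ where
  toFun f := (τ (cfc (ext x f) x)).re
  map_add' f g := by
    have h1 : ext x (f + g : C_c(Set.Icc (-‖x‖) ‖x‖, ℝ)) = fun t => ext x f t + ext x g t := by
      funext t
      rfl
    have hc1 := ext_cont x f f.continuous
    have hc2 := ext_cont x g g.continuous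
    rw [h1, cfc_add (a := x) (ext x f) (ext x g) hc1.continuousOn hc2.continuousOn, map_add,
      Complex.add_re]
  map_smul' c f := by
    have h1 : ext x (c • f : C_c(Set.Icc (-‖x‖) ‖x‖, ℝ)) = fun t => c • ext x f t := by
      funext t
      rfl
    have hc1 := ext_cont x f f.continuous
    rw [h1, cfc_smul (a := x) c (ext x f) hc1.continuousOn]
    have : (c • cfc (ext x f) x : B) = (c : ℂ) • cfc (ext x f) x := by
      rw [Complex.coe_smul]
    rw [this, map_smul]
    simp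

lemma cfc_nonneg_re (τ : B →ₗ[ℂ] ℂ) (hτ : FTS τ) (x : B) (hx : star x = x) (F : ℝ → ℝ)
    (hF : Continuous F) (h0 : ∀ t, 0 ≤ F t) : 0 ≤ (τ (cfc F x)).re := by
  have hs : Continuous fun t => Real.sqrt (F t) := hF.sqrt
  have h1 : cfc F x = star (cfc (fun t => Real.sqrt (F t)) x) * cfc (fun t => Real.sqrt (F t)) x := by
    have hsa : star (cfc (fun t => Real.sqrt (F t)) x) = cfc (fun t => Real.sqrt (F t)) x :=
      (cfc_predicate (p := IsSelfAdjoint) (fun t => Real.sqrt (F t)) x).star_eq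
    rw [hsa, ← cfc_mul (a := x) _ _ hs.continuousOn hs.continuousOn]
    congr 1
    funext t
    exact (Real.mul_self_sqrt (h0 t)).symm
  rw [h1]
  exact hτ.nonneg _

end

theorem t_LAWM : S_LAWM := by
  intro B _ τ hτ x hx
  have hnt : Nontrivial B := by
    refine ⟨⟨1, 0, fun h => ?_⟩⟩
    have h1 := hτ.one
    rw [h, map_zero] at h1
    exact zero_ne_one h1
  set Λ : C_c(Set.Icc (-‖x‖) ‖x‖, ℝ) →ₚ[ℝ] ℝ :=
    PositiveLinearMap.mk₀ (Lam τ hτ x hx) (fun f hf => cfc_nonneg_re τ hτ x hx _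
      (ext_cont x f f.continuous) (fun t => hf _)) with hΛ
  have hint := RealRMK.integral_rieszMeasure Λ
  set μ0 := RealRMK.rieszMeasure Λ with hμ0
  have hmem : Measurable (Subtype.val : Set.Icc (-‖x‖) ‖x‖ → ℝ) := measurable_subtype_coe
  have hemb : MeasurableEmbedding (Subtype.val : Set.Icc (-‖x‖) ‖x‖ → ℝ) :=
    MeasurableEmbedding.subtype_coe measurableSet_Icc
  have key : ∀ F : ℝ → ℝ, Continuous F →
      (τ (cfc F x)).re = ∫ t, F t ∂(μ0.map Subtype.val) := by
    intro F hF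
    rw [hemb.integral_map]
    have hc : Continuous fun t : Set.Icc (-‖x‖) ‖x‖ => F t := hF.comp continuous_subtype_val
    let f : C_c(Set.Icc (-‖x‖) ‖x‖, ℝ) :=
      ⟨⟨fun t => F t, hc⟩, HasCompactSupport.of_compactSpace _⟩
    have h2 := hint f
    have h3 : (∫ t, f t ∂μ0) = ∫ t : Set.Icc (-‖x‖) ‖x‖, F t ∂μ0 := rfl
    rw [← h3, h2]
    show _ = (τ (cfc (ext x f) x)).re
    have h4 : cfc F x = cfc (ext x f) x := by
      refine cfc_congr ?_
      intro t ht
      have h5 : ‖t‖ ≤ ‖x‖ := spectrum.norm_le_norm_of_mem ht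
      rw [Real.norm_eq_abs, abs_le] at h5
      have h6 : ext x f t = f ⟨t, h5⟩ := Set.IccExtend_of_mem (hle x) f h5
      rw [h6]
      rfl
    rw [h4]
  have h1 : ∫ t, (1 : ℝ) ∂(μ0.map Subtype.val) = 1 := by
    rw [← key (fun _ => 1) continuous_const]
    rw [cfc_const_one ℝ x, hτ.one]
    rfl
  refine ⟨μ0.map Subtype.val, ?_, ?_, ?_⟩
  · refine ⟨?_⟩
    rw [integral_const, smul_eq_mul, mul_one] at h1
    exact (ENNReal.toReal_eq_one_iff _).1 h1
  · rw [Measure.map_apply hmem measurableSet_Icc.compl]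
    convert measure_empty (μ := μ0)
    ext t
    simp only [Set.mem_preimage, Set.mem_compl_iff, Set.mem_empty_iff_false, iff_false, not_not]
    exact t.2
  · intro F hF
    rw [← key F hF]
    have hsa : star (cfc F x) = cfc F x :=
      (cfc_predicate (p := IsSelfAdjoint) F x).star_eq
    have h2 := hτ.str (cfc F x)
    rw [hsa] at h2
    exact (Complex.conj_eq_iff_re.1 h2.symm).symm

end Pool.Agent.H308R2.ZS.T_LAWM
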